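import Pool.Agent.N984.DI.Stm

/-!
# DI/LIMB: passage to singular B
-/

set_option autoImplicit false
set_option linter.unusedVariables false

namespace Pool.Agent.N700.DI

open Matrix Finset Filter Topology Pool.Agent.N984.DI
open scoped ComplexOrder

section

open scoped Matrix.Norms.L2Operator

/-- continuity of powers on hermitian matrices -/
theorem mpow_tendsto {n : ℕ} {a : ℕ → Matrix (Fin n) (Fin n) ℂ} {a₀ : Matrix (Fin n) (Fin n) ℂ}
    (h : Tendsto a atTop (𝓝 a₀)) (ha : ∀ m, (a m).IsHermitian) (ha₀ : a₀.IsHermitian) {s : ℝ}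
    (hs : 0 ≤ s) : Tendsto (fun m => mpow (a m) s) atTop (𝓝 (mpow a₀ s)) := by
  have hsp : ∀ X : Matrix (Fin n) (Fin n) ℂ,
      spectrum ℝ X ⊆ Metric.closedBall 0 (‖X‖ * ‖(1 : Matrix (Fin n) (Fin n) ℂ)‖) := fun X =>
    spectrum.subset_closedBall_norm_mul X
  have hK : IsCompact (Metric.closedBall (0 : ℝ)
      ((‖a₀‖ + 1) * ‖(1 : Matrix (Fin n) (Fin n) ℂ)‖)) := isCompact_closedBall _ _
  have hn : ∀ᶠ m in atTop, ‖a m‖ < ‖a₀‖ + 1 :=
    h.norm.eventually (gt_mem_nhds (lt_add_one _))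
  unfold mpow
  refine Filter.Tendsto.cfc hK (fun x : ℝ => x ^ s) h ?_ (Eventually.of_forall ha) ?_ ha₀ ?_
  · filter_upwards [hn] with m hm
    refine (hsp (a m)).trans (Metric.closedBall_subset_closedBall ?_)
    exact mul_le_mul_of_nonneg_right hm.le (norm_nonneg _)
  · refine (hsp a₀).trans (Metric.closedBall_subset_closedBall ?_)
    exact mul_le_mul_of_nonneg_right (by linarith) (norm_nonneg _)
  · exact (Real.continuous_rpow_const hs).continuousOn

end

theorem t_LIMB (h0 : CFD) (h1 : SPD) : LIMB := by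
  intro hPD n A B hA hB p hp hp2
  let c : ℕ → ℂ := fun m => ((1 / ((m : ℝ) + 1) : ℝ) : ℂ)
  let b : ℕ → Matrix (Fin n) (Fin n) ℂ := fun m => B + c m • 1
  have hc : ∀ m, 0 < c m := fun m => by
    have h2 : (0 : ℝ) < 1 / ((m : ℝ) + 1) := by positivity
    show (0 : ℂ) < ((1 / ((m : ℝ) + 1) : ℝ) : ℂ)
    exact Complex.zero_lt_real.2 h2
  have hb : ∀ m, (b m).PosDef := fun m =>
    Matrix.PosDef.posSemidef_add hB (Matrix.PosDef.one.smul (hc m))
  have hct : Tendsto c atTop (𝓝 0) := by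
    have h2 : Tendsto (fun m : ℕ => 1 / ((m : ℝ) + 1)) atTop (𝓝 0) :=
      tendsto_one_div_add_atTop_nhds_zero_nat
    have h3 := (Complex.continuous_ofReal.tendsto 0).comp h2
    rw [Complex.ofReal_zero] at h3
    exact h3
  have hbt : Tendsto b atTop (𝓝 B) := by
    have h2 : Tendsto (fun m => B + c m • (1 : Matrix (Fin n) (Fin n) ℂ)) atTop
        (𝓝 (B + (0 : ℂ) • (1 : Matrix (Fin n) (Fin n) ℂ))) :=
      tendsto_const_nhds.add (hct.smul_const _)
    rw [zero_smul, add_zero] at h2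
    exact h2
  have hh : ∀ X : Matrix (Fin n) (Fin n) ℂ, X.IsHermitian → (X * (A * A) * X).IsHermitian := by
    intro X hX
    have hAA : (A * A).IsHermitian := by
      rw [Matrix.IsHermitian, Matrix.conjTranspose_mul, hA.isHermitian.eq]
    rw [Matrix.IsHermitian, Matrix.conjTranspose_mul, Matrix.conjTranspose_mul, hX.eq, hAA.eq]
    simp only [Matrix.mul_assoc]
  have t1 : Tendsto (fun m => (A * A + mpow A p * mpow (b m) p).det) atTop
      (𝓝 (A * A + mpow A p * mpow B p).det) := by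
    have h2 : Tendsto (fun m => mpow (b m) p) atTop (𝓝 (mpow B p)) :=
      mpow_tendsto hbt (fun m => (hb m).isHermitian) hB.isHermitian hp.le
    have h3 : Continuous fun X : Matrix (Fin n) (Fin n) ℂ => (A * A + mpow A p * X).det := by
      fun_prop
    exact (h3.tendsto _).comp h2
  have t2 : Tendsto (fun m => (A * A + mpow (b m * (A * A) * b m) (p / 2)).det) atTop
      (𝓝 (A * A + mpow (B * (A * A) * B) (p / 2)).det) := by
    have h2 : Tendsto (fun m => b m * (A * A) * b m) atTop (𝓝 (B * (A * A) * B)) :=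
      (hbt.mul tendsto_const_nhds).mul hbt
    have h3 : Tendsto (fun m => mpow (b m * (A * A) * b m) (p / 2)) atTop
        (𝓝 (mpow (B * (A * A) * B) (p / 2))) :=
      mpow_tendsto h2 (fun m => hh _ (hb m).isHermitian) (hh _ hB.isHermitian) (by linarith)
    have h4 : Continuous fun X : Matrix (Fin n) (Fin n) ℂ => (A * A + X).det := by
      fun_prop
    exact (h4.tendsto _).comp h3
  exact le_of_tendsto_of_tendsto' t1 t2 fun m => hPD n A (b m) hA (hb m) p hp hp2

end Pool.Agent.N700.DI
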